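import Mathlib

set_option autoImplicit false

namespace Pool.Agent.Results.MP_efe8c5_co.Pendant

open Matrix
open scoped Classical ComplexOrder

variable {V : Type} [Fintype V]

/-- magnetic potential -/
def Potential (G : SimpleGraph V) (σ : V → V → ℂ) : Prop :=
  ∀ x y, G.Adj x y → ‖σ x y‖ = 1 ∧ σ y x = (σ x y)⁻¹

/-- magnetic Laplacian -/
noncomputable def lap (G : SimpleGraph V) (σ : V → V → ℂ) (f : V → ℂ) (x : V) : ℂ :=
  ∑ y, if G.Adj x y then f x - σ x y * f y else 0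

/-- smallest eigenvalue -/
noncomputable def lam1 (G : SimpleGraph V) (σ : V → V → ℂ) : ℝ :=
  sInf {l : ℝ | ∃ f : V → ℂ, f ≠ 0 ∧ ∀ x, lap G σ f x = l * f x}

/-- magneto-spectral height -/
noncomputable def height (G : SimpleGraph V) : ℝ := sSup {l | ∃ σ, Potential G σ ∧ l = lam1 G σ}

/-- suspension -/
def susp (G : SimpleGraph V) : SimpleGraph (Option V) where
  Adj a b := match a, b with
    | none, none => False
    | some x, some y => G.Adj x y
    | _, _ => True
  symm := ⟨fun a b h => by cases a <;> cases b <;> first | exact h | exact h.symm⟩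
  loopless := ⟨fun a h => by cases a <;> first | exact h | exact h.ne rfl⟩

theorem eig (G : SimpleGraph V) (σ : V → V → ℂ) (h : Potential G σ) (c : ℝ) (v : V → ℂ)
    (hv : v ≠ 0) (hc : (∑ x, star (v x) * (lap G σ v x - c * v x)).re ≤ 0) :
    ∃ l ≤ c, ∃ f : V → ℂ, f ≠ 0 ∧ ∀ x, lap G σ f x = l * f x := by
  let M : Matrix V V ℂ := fun x y => (if x = y then (∑ z, if G.Adj x z then 1 else 0) - (c : ℂ) else 0) -
    (if G.Adj x y then σ x y else 0)
  have hM : ∀ f x, (M *ᵥ f) x = lap G σ f x - c * f x := by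
    intro f x
    simp only [M, mulVec, dotProduct, lap, sub_mul, Finset.sum_sub_distrib, ite_mul, zero_mul,
      Finset.sum_ite_eq, Finset.mem_univ, if_true, Finset.sum_mul, one_mul]
    rw [sub_right_comm, ← Finset.sum_sub_distrib]
    congr 2; ext y; split_ifs <;> simp
  have hH : M.IsHermitian := by
    ext x y
    simp only [M, conjTranspose_apply, star_sub]
    congr 1
    · by_cases e : x = y
      · subst e; simp
      · simp [e, Ne.symm e]
    · by_cases e : G.Adj x y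
      · rw [if_pos e, if_pos e.symm, (h x y e).2, Complex.inv_eq_conj (h x y e).1]; simp
      · rw [if_neg e, if_neg (fun e' => e e'.symm), star_zero]
  by_contra hn
  have hp : M.PosDef := by
    rw [hH.posDef_iff_eigenvalues_pos]
    intro i
    by_contra hi
    refine hn ⟨hH.eigenvalues i + c, by linarith, hH.eigenvectorBasis i, ?_, fun x => ?_⟩
    · intro e
      exact (hH.eigenvectorBasis.orthonormal.ne_zero i) (by ext x; exact congrFun e x)
    · have := congrFun (hH.mulVec_eigenvectorBasis i) x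
      rw [hM] at this
      simp only [Pi.smul_apply, Complex.real_smul] at this
      push_cast; linear_combination this
  have := hp.re_dotProduct_pos hv
  simp only [dotProduct, hM, Pi.star_apply, RCLike.re_to_complex] at this
  linarith

theorem lam_le (G : SimpleGraph V) (σ : V → V → ℂ) (h : Potential G σ) (c : ℝ) (h0 : 0 ≤ c)
    (v : V → ℂ) (hv : v ≠ 0) (hc : (∑ x, star (v x) * (lap G σ v x - c * v x)).re ≤ 0) :
    lam1 G σ ≤ c := by
  obtain ⟨l, hl, hf⟩ := eig G σ h c v hv hc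
  by_cases hb : BddBelow {l : ℝ | ∃ f : V → ℂ, f ≠ 0 ∧ ∀ x, lap G σ f x = l * f x}
  · exact (csInf_le hb hf).trans hl
  · rw [lam1, Real.sInf_of_not_bddBelow hb]; exact h0

def G0 : SimpleGraph (Fin 5) where
  Adj a b := a ≠ b ∧ ((a ≠ 4 ∧ b ≠ 4) ∨ a = 0 ∨ b = 0)
  symm := ⟨fun a b h => ⟨h.1.symm, by tauto⟩⟩
  loopless := ⟨fun a h => h.1 rfl⟩

theorem G0_le (σ : Fin 5 → Fin 5 → ℂ) : (∑ x, star (Pi.single (M := fun _ => ℂ) (4 : Fin 5) 1 x) *
    (lap G0 σ (Pi.single 4 1) x - (1 : ℝ) * Pi.single (M := fun _ => ℂ) (4 : Fin 5) 1 x)).re ≤ 0 := by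
  simp [Fin.sum_univ_five, lap, G0]

theorem low : 3 / 5 ≤ height G0 := by
  have hp : Potential G0 (fun _ _ => -1) := fun x y _ => by simp
  refine le_trans ?_ (le_csSup ⟨1, ?_⟩ ⟨_, hp, rfl⟩)
  · obtain ⟨l, -, hl⟩ := eig G0 _ hp 1 _ (by simp) (G0_le _)
    refine le_csInf ⟨l, hl⟩ ?_
    rintro m ⟨f, hf, h⟩
    by_contra hm
    have key : ∀ g : Fin 5 → ℝ, 4 * g 0 + g 1 + g 2 + g 3 + g 4 = m * g 0 →
        3 * g 1 + g 0 + g 2 + g 3 = m * g 1 → 3 * g 2 + g 0 + g 1 + g 3 = m * g 2 →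
        3 * g 3 + g 0 + g 1 + g 2 = m * g 3 → g 4 + g 0 = m * g 4 → ∀ i, g i = 0 := by
      intro g h0 h1 h2 h3 h4
      have hq : 4 * g 0 ^ 2 + 3 * g 1 ^ 2 + 3 * g 2 ^ 2 + 3 * g 3 ^ 2 + g 4 ^ 2 +
          2 * (g 0 * g 1 + g 0 * g 2 + g 0 * g 3 + g 1 * g 2 + g 1 * g 3 + g 2 * g 3 + g 0 * g 4) =
          m * (g 0 ^ 2 + g 1 ^ 2 + g 2 ^ 2 + g 3 ^ 2 + g 4 ^ 2) := by
        linear_combination g 0 * h0 + g 1 * h1 + g 2 * h2 + g 3 * h3 + g 4 * h4
      have hz : g 0 ^ 2 + g 1 ^ 2 + g 2 ^ 2 + g 3 ^ 2 + g 4 ^ 2 ≤ 0 := by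
        by_contra hs
        have := mul_pos (sub_pos.2 (not_le.1 hm)) (not_le.1 hs)
        nlinarith [sq_nonneg (2 * g 4 + 5 * g 0), sq_nonneg (g 1 - g 2), sq_nonneg (g 1 - g 3),
          sq_nonneg (g 2 - g 3), sq_nonneg (9 * g 0 + 10 * (g 1 + g 2 + g 3)),
          sq_nonneg (g 1 + g 2 + g 3)]
      intro i
      fin_cases i <;> simp <;> nlinarith [sq_nonneg (g 0), sq_nonneg (g 1), sq_nonneg (g 2),
        sq_nonneg (g 3), sq_nonneg (g 4)]
    have h0 := h 0; have h1 := h 1; have h2 := h 2; have h3 := h 3; have h4 := h 4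
    simp [Fin.sum_univ_five, lap, G0, Complex.ext_iff] at h0 h1 h2 h3 h4
    have a := key (fun i => (f i).re) (by linarith) (by linarith) (by linarith) (by linarith)
      (by linarith)
    have b := key (fun i => (f i).im) (by linarith) (by linarith) (by linarith) (by linarith)
      (by linarith)
    exact hf (funext fun i => Complex.ext (a i) (b i))
  · rintro _ ⟨σ, hσ, rfl⟩
    exact lam_le G0 σ hσ 1 zero_le_one _ (by simp) (G0_le _)

theorem up : height (susp G0) ≤ 14 / 9 := by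
  refine Real.sSup_le ?_ (by norm_num)
  rintro _ ⟨σ, hσ, rfl⟩
  obtain ⟨a1, a2⟩ := hσ (some 0) (some 4) (by simp [susp, G0])
  obtain ⟨b1, b2⟩ := hσ none (some 4) (by simp [susp])
  obtain ⟨c1, c2⟩ := hσ none (some 0) (by simp [susp])
  rw [Complex.inv_eq_conj a1] at a2
  rw [Complex.inv_eq_conj b1] at b2
  rw [Complex.inv_eq_conj c1] at c2
  refine lam_le _ σ hσ _ (by norm_num) (fun x => if x = none then σ none (some 4) else
    if x = some 0 then σ (some 0) (some 4) else if x = some 4 then 4 else 0)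
    (fun e => by simpa using congrFun e (some 4)) ?_
  have n1 := Complex.abs_re_le_norm (star (σ none (some 4)) * σ none (some 0) * σ (some 0) (some 4))
  simp only [norm_mul, norm_star, a1, b1, c1] at n1
  simp [Fintype.sum_option, Fin.sum_univ_five, lap, G0, susp, a2, b2, c2]
  rw [Complex.norm_eq_sqrt_sq_add_sq, Real.sqrt_eq_one] at a1 b1
  simp at n1
  generalize σ none (some 4) = b at *
  generalize σ none (some 0) = c at *
  generalize σ (some 0) (some 4) = a at *
  nlinarith [(abs_le.1 n1).1]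

theorem result : ∃ (n : ℕ) (G : SimpleGraph (Fin n)), 0 < n ∧ (∀ x, ∃ y, G.Adj x y) ∧
    height (susp G) < height G + 1 :=
  ⟨5, G0, by norm_num, fun x => by
    fin_cases x
    exacts [⟨1, by simp [G0]⟩, ⟨0, by simp [G0]⟩, ⟨0, by simp [G0]⟩, ⟨0, by simp [G0]⟩,
      ⟨0, by simp [G0]⟩], by linarith [low, up]⟩

end Pool.Agent.Results.MP_efe8c5_co.Pendant
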